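import Pool.Agent.H24.DSep3

open Cardinal

universe u

namespace Pool.Agent.Results.MP_339821_gt.CofOmega

open Pool.Agent.H24.DS

theorem result : ∀ I : Type u, (#I).ord.cof = ℵ₀ → DSep (Sig I) :=
  fun _ h => DSep_of_cof h

end Pool.Agent.Results.MP_339821_gt.CofOmega
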