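import Pool.Agent.H24.DSep2

open Cardinal

universe u

namespace Pool.Agent.Results.MP_339821_gt.NotDSep

open Pool.Agent.H24.DS

theorem result : ∀ (I : Type u) [Infinite I], #I ^ ℵ₀ = #I →
    FrechetUrysohnSpace (Sig I) ∧ dSep (Sig I) ∧ ¬ DSep (Sig I) :=
  fun _ _ h => ⟨frechet, dsep, not_DSep h⟩

end Pool.Agent.Results.MP_339821_gt.NotDSep
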